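import Pool.Agent.Helper22.G4.GenFam
import Pool.Agent.Helper22.G4.St.A2
import Pool.Agent.Helper22.G4.St.A4
import Pool.Agent.Helper22.G4.St.A5
import Pool.Agent.Helper22.G4.St.G1
import Pool.Agent.Helper22.G4.St.G2
import Pool.Agent.Helper22.G4.St.G3
import Pool.Agent.Helper22.G4.St.G4
import Pool.Agent.Helper22.G4.St.G5
import Pool.Agent.Helper22.G4.St.G6

/-! # G4-G7: the graph of a realizable polytope -/

namespace Pool.Agent.Helper59.G4

open Submodule Pool.Agent.Helper22.G4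

variable {α φ : Type} [DecidableEq α] [DecidableEq φ]

/-- the set of vertices on which the new vertex is stacked -/
def TT (z : X α φ) : Finset (X α φ) :=
  match z with
  | .inl _ => ∅
  | .inr T => (T.map Sum.inl).toFinset

theorem coe_TT (T : List (W α φ)) :
    ((TT (.inr T : X α φ) : Finset (X α φ)) : Set (X α φ)) = Sum.inl '' {w | w ∈ T} := by
  ext z
  simp [TT]

theorem inl_mem_TT (T : List (W α φ)) (a : W α φ) :
    (Sum.inl a : X α φ) ∈ TT (.inr T : X α φ) ↔ a ∈ T := by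
  simp [TT]

theorem card_TT {T : List (W α φ)} (hn : T.Nodup) (hl : T.length = 4) :
    (TT (.inr T : X α φ)).card = 4 := by
  have h1 : (T.map (Sum.inl : W α φ → X α φ)).Nodup := hn.map Sum.inl_injective
  unfold TT
  simp only
  rw [List.toFinset_card_of_nodup h1, List.length_map, hl]

theorem eq_of_mem {V : Type*} {Z T : Set V} (h : Z ∈ ({Z | Z = T} : Set (Set V))) : Z = T := h

theorem allW_eq (D : Data α φ) : D.allW = D.l3 := by
  simp [Data.allW, Data.l3, Data.l2, Data.l1, Data.l0, List.append_assoc]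

theorem FAdj_symm {V : Type*} {A : Finset V} {Z : Set (Set V)} {u v : V} (h : FAdj A Z u v) :
    FAdj A Z v u := by
  intro t ht h1 h2
  obtain ⟨Y, hY, h3, h4, h5⟩ := h t ht h2 h1
  exact ⟨Y, hY, h4, h3, h5⟩

theorem FAdj_map {V V' : Type*} (f : V ↪ V') {A : Finset V} {Z : Set (Set V)} {u v : V} :
    FAdj (A.map f) ((fun Z => f '' Z) '' Z) (f u) (f v) ↔ FAdj A Z u v := by
  constructor
  · intro h t ht h1 h2
    obtain ⟨Y, hY, h3, h4, h5⟩ := h (f t) (Finset.mem_map_of_mem f ht)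
      (fun hh => h1 (f.injective hh)) (fun hh => h2 (f.injective hh))
    obtain ⟨Y', hY', rfl⟩ := hY
    refine ⟨Y', hY', ?_, ?_, ?_⟩
    · exact (Function.Injective.mem_set_image f.injective).1 h3
    · exact (Function.Injective.mem_set_image f.injective).1 h4
    · exact fun hh => h5 (Set.mem_image_of_mem f hh)
  · intro h t ht h1 h2
    obtain ⟨s, hs, rfl⟩ := Finset.mem_map.1 ht
    obtain ⟨Y, hY, h3, h4, h5⟩ := h s hs (fun hh => h1 (by rw [hh])) (fun hh => h2 (by rw [hh]))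
    exact ⟨f '' Y, ⟨Y, hY, rfl⟩, Set.mem_image_of_mem f h3, Set.mem_image_of_mem f h4,
      fun hh => h5 ((Function.Injective.mem_set_image f.injective).1 hh)⟩

theorem FVert_map {V V' : Type*} (f : V ↪ V') {A : Finset V} {Z : Set (Set V)} {u : V}
    (h : FVert A Z u) : FVert (A.map f) ((fun Z => f '' Z) '' Z) (f u) := by
  intro t ht h1
  obtain ⟨s, hs, rfl⟩ := Finset.mem_map.1 ht
  obtain ⟨Y, hY, h3, h5⟩ := h s hs (fun hh => h1 (by rw [hh]))
  exact ⟨f '' Y, ⟨Y, hY, rfl⟩, Set.mem_image_of_mem f h3,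
    fun hh => h5 ((Function.Injective.mem_set_image f.injective).1 hh)⟩

/-- G4-G7 (assembly: the graph of a realizable polytope). -/
theorem gen_realize {D : Data α φ} (hD : D.Good) (h : Realizable D.verts.toFinset D.fam) :
    ConicGraph D.allX.toFinset D.adjX := by
  classical
  have h3 : Realizable D.l3.toFinset D.fam3 :=
    gen_l3 hD (gen_l2 hD (gen_l1 hD (gen_l0 h)))
  have F3 : StepFacts D.l3.toFinset D.fam3 D.adjW := gen_facts3 hD
  set f : W α φ ↪ X α φ := Function.Embedding.inl with hf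
  have hfa : ∀ a : W α φ, f a = Sum.inl a := fun a => rfl
  have h4 := Realizable.map f h3
  set A : Finset (X α φ) := D.l3.toFinset.map f with hAdef
  set ZZ : Set (Set (X α φ)) := (fun Z => f '' Z) '' D.fam3 with hZZ
  set B : Finset (X α φ) := ((D.flats.flatMap Ts).map Sum.inr).toFinset with hB
  have hmemB : ∀ z ∈ B, ∃ R ∈ D.flats, ∃ T ∈ Ts R, z = Sum.inr T := by
    intro z hz
    rw [hB, List.mem_toFinset, List.mem_map] at hz
    obtain ⟨T, hT, rfl⟩ := hz
    obtain ⟨R, hR, hT⟩ := List.mem_flatMap.1 hT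
    exact ⟨R, hR, T, hT, rfl⟩
  have hAB : Disjoint A B := by
    rw [Finset.disjoint_left]
    intro z hz hzB
    obtain ⟨R, hR, T, hT, rfl⟩ := hmemB z hzB
    rw [hAdef] at hz
    obtain ⟨a, _, ha⟩ := Finset.mem_map.1 hz
    rw [hfa] at ha
    exact Sum.inl_ne_inr ha
  have hcardA : 6 ≤ A.card := by
    rw [hAdef, Finset.card_map]
    have h5 : D.l0.toFinset ⊆ D.l3.toFinset := by
      intro w hw
      rw [List.mem_toFinset] at hw ⊢
      simp only [Data.l3, Data.l2, Data.l1, List.mem_append]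
      exact Or.inl (Or.inl (Or.inl hw))
    have h6 : D.l0.toFinset.card = D.verts.length := by
      rw [List.toFinset_card_of_nodup, Data.l0, List.length_map]
      exact hD.vnd.map Sum.inl_injective
    have h7 := Finset.card_le_card h5
    have h8 := hD.big
    omega
  have hcard : ∀ z ∈ B, (TT z).card = 4 := by
    intro z hz
    obtain ⟨R, hR, T, hT, rfl⟩ := hmemB z hz
    obtain ⟨h5, h6, -⟩ := gen_T_list hD R hR T hT
    exact card_TT h5 h6
  have hT : ∀ z ∈ B, (TT z : Set (X α φ)) ∈ ZZ := by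
    intro z hz
    obtain ⟨R, hR, T, hT, rfl⟩ := hmemB z hz
    rw [coe_TT]
    exact ⟨_, (gen_T hD R hR T hT).1, rfl⟩
  have hmax : ∀ z ∈ B, ∀ Z ∈ ZZ, (TT z : Set (X α φ)) ⊆ Z → Z = TT z := by
    intro z hz Z hZ hsub
    obtain ⟨R, hR, T, hT, rfl⟩ := hmemB z hz
    obtain ⟨Y, hY, rfl⟩ := hZ
    rw [coe_TT] at hsub ⊢
    have h5 : {w | w ∈ T} ⊆ Y := by
      intro w hw
      have h6 := hsub (Set.mem_image_of_mem _ hw)
      exact (Function.Injective.mem_set_image f.injective).1 h6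
    have h6 := (gen_T hD R hR T hT).2 Y hY h5
    rw [h6]
    rfl
  have hinj : ∀ z ∈ B, ∀ y ∈ B, TT z = TT y → z = y := by
    intro z hz y hy hzy
    obtain ⟨R, hR, T, hT, rfl⟩ := hmemB z hz
    obtain ⟨S, hS, U, hU, rfl⟩ := hmemB y hy
    have h5 : (Sum.inl '' {w | w ∈ T} : Set (X α φ)) = Sum.inl '' {w | w ∈ U} := by
      rw [← coe_TT, ← coe_TT, hzy]
    have h6 : ({w | w ∈ T} : Set (W α φ)) = {w | w ∈ U} :=
      Set.image_injective.2 Sum.inl_injective h5
    rw [gen_T_inj hD R hR S hS T hT U hU h6]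
  have hne : ∀ z ∈ B, (TT z).Nonempty := by
    intro z hz
    rw [← Finset.card_pos, hcard z hz]
    norm_num
  have hTA : ∀ z ∈ B, TT z ≠ A := by
    intro z hz hh
    have h5 := hcard z hz
    rw [hh] at h5
    omega
  have hreal := stack hAB h4 TT hT hmax hinj hne hTA
  have hsubA : ∀ z ∈ B, TT z ⊆ A := by
    intro z hz w hw
    obtain ⟨R, hR, T, hT, rfl⟩ := hmemB z hz
    rw [← Finset.mem_coe, coe_TT] at hw
    obtain ⟨a, ha, rfl⟩ := hw
    rw [hAdef]
    refine Finset.mem_map.2 ⟨a, ?_, rfl⟩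
    rw [List.mem_toFinset]
    exact (gen_T_list hD R hR T hT).2.2 a ha
  have hZA : ∀ Z ∈ ZZ, Z ⊆ A := by
    rintro Z ⟨Y, hY, rfl⟩
    rintro z ⟨w, hw, rfl⟩
    have h5 := F3.sub Y hY hw
    rw [hAdef]
    exact Finset.mem_coe.2 (Finset.mem_map_of_mem f (Finset.mem_coe.1 h5))
  have hvA : ∀ u ∈ A, FVert A ZZ u := by
    intro u hu
    obtain ⟨a, ha, rfl⟩ := Finset.mem_map.1 hu
    exact FVert_map f (F3.vert a ha)
  obtain ⟨g1, g2, g3, g4, g5⟩ := add_adj hAB hZA (fun z => {Z | Z = (TT z : Set (X α φ))})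
    (fun z hz Z hZ => by rw [eq_of_mem hZ]; exact hT z hz)
    (fun z hz => ⟨_, rfl⟩)
    (fun z hz y hy hzy => by
      rw [Set.disjoint_left]
      intro Z hZ hZ'
      exact hzy (hinj z hz y hy (Finset.coe_injective
        ((eq_of_mem hZ).symm.trans (eq_of_mem hZ')))))
    TT hsubA (fun z hz Z hZ => by rw [eq_of_mem hZ])
    (fun z hz => by rw [hcard z hz]; norm_num)
    (fun z hz hh => by rw [hcard z hz] at hh; norm_num at hh)
    hvA (by omega)
  obtain ⟨c, hc1, hc2, hc3⟩ := conic_of_realizable hreal g2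
  have hall : D.allX.toFinset = A ∪ B := by
    ext z
    rw [Finset.mem_union, List.mem_toFinset, Data.allX, List.mem_append, allW_eq, hAdef, hB,
      Finset.mem_map, List.mem_toFinset, List.mem_map]
    simp only [List.mem_toFinset, hfa]
  rw [hall]
  refine ⟨c, hc1, hc2, ?_⟩
  intro u hu v hv huv
  rw [hc3 u hu v hv huv]
  have hA' : ∀ a : W α φ, (Sum.inl a : X α φ) ∈ A ∪ B → a ∈ D.l3.toFinset ∧ (Sum.inl a : X α φ) ∈ A := by
    intro a ha
    rcases Finset.mem_union.1 ha with ha | ha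
    · obtain ⟨b, hb, hb'⟩ := Finset.mem_map.1 ha
      rw [hfa] at hb'
      have hb'' : b = a := Sum.inl_injective hb'
      exact ⟨hb'' ▸ hb, ha⟩
    · obtain ⟨R, hR, T, hT, h5⟩ := hmemB _ ha
      exact absurd h5 Sum.inl_ne_inr
  have hB' : ∀ T : List (W α φ), (Sum.inr T : X α φ) ∈ A ∪ B → (Sum.inr T : X α φ) ∈ B := by
    intro T hT
    rcases Finset.mem_union.1 hT with hT | hT
    · obtain ⟨b, hb, hb'⟩ := Finset.mem_map.1 hT
      rw [hfa] at hb'
      exact absurd hb' Sum.inl_ne_inr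
    · exact hT
  have key : ∀ (T : List (W α φ)) (a : W α φ), (Sum.inr T : X α φ) ∈ B → (Sum.inl a : X α φ) ∈ A →
      (FAdj (A ∪ B) (addFam ZZ B fun z => {Z | Z = (TT z : Set (X α φ))}) (Sum.inr T) (Sum.inl a) ↔
        a ∈ T) := by
    intro T a hT ha
    rw [g4 _ hT _ ha]
    constructor
    · rintro ⟨Z, hZ, haZ⟩
      rw [eq_of_mem hZ] at haZ
      exact (inl_mem_TT T a).1 (Finset.mem_coe.1 haZ)
    · intro h5
      exact ⟨_, rfl, Finset.mem_coe.2 ((inl_mem_TT T a).2 h5)⟩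
  rcases u with a | T <;> rcases v with b | U
  · obtain ⟨ha, ha'⟩ := hA' a hu
    obtain ⟨hb, hb'⟩ := hA' b hv
    have hab : a ≠ b := fun hh => huv (by rw [hh])
    rw [g3 _ ha' _ hb' huv]
    have h5 : FAdj A ZZ (f a) (f b) ↔ FAdj D.l3.toFinset D.fam3 a b := FAdj_map f
    rw [hfa, hfa] at h5
    rw [h5, F3.adj a ha b hb hab]
    exact Iff.rfl
  · obtain ⟨ha, ha'⟩ := hA' a hu
    have hU := hB' U hv
    have h5 := key U a hU ha'
    show _ ↔ a ∈ U
    rw [← h5]
    exact ⟨FAdj_symm, FAdj_symm⟩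
  · obtain ⟨hb, hb'⟩ := hA' b hv
    have hT := hB' T hu
    exact key T b hT hb'
  · have hT := hB' T hu
    have hU := hB' U hv
    show _ ↔ False
    exact iff_false_intro (g5 _ hT _ hU huv)

end Pool.Agent.Helper59.G4
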