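import Pool.Agent.Helper22.G4.Sys

/-! # G4-N5: a weak solution of the normal form gives a solution of the constraints -/

namespace Pool.Agent.Helper59.G4

open Pool.Agent.Helper22.G4

theorem holds_add {val : ℕ → ℝ} {x y z : ℕ} (h : NF.Holds val (false, x, y, z)) :
    val z = val x + val y := by
  unfold NF.Holds at h
  simpa using h

theorem holds_mul {val : ℕ → ℝ} {x y z : ℕ} (h : NF.Holds val (true, x, y, z)) :
    val z = val x * val y := by
  unfold NF.Holds at h
  simpa using h

/-- G4-N5 -/
theorem posWeak_of_weak {n : ℕ} {C : List PC} (hn : 1 ≤ n)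
    (hC : ∀ q ∈ C, q.2.1 < n ∧ q.2.2.1 < n ∧ q.2.2.2 < n) (h : (nfOf n C).Weak) : PosWeak C := by
  obtain ⟨val, h1, hne, hops⟩ := h
  set B : ℕ := 8 * (n + C.length) with hB
  have hBB : (nfOf n C).B = B := rfl
  have hK : (nfOf n C).K = B + 3 + (4 * n + 2) := rfl
  rw [hBB] at h1 hne
  rw [hK] at hne
  have hops' : ∀ o, o ∈ (List.range n).flatMap (modConv B n) ++
      C.zipIdx.flatMap (fun q => modCon B n (8 * (n + q.2)) q.1) → NF.Holds val o := hops
  have hconv : ∀ i < n, ∀ o ∈ modConv B n i, NF.Holds val o := by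
    intro i hi o ho
    apply hops'
    rw [List.mem_append]
    exact Or.inl (List.mem_flatMap.2 ⟨i, List.mem_range.2 hi, ho⟩)
  have hM : ∀ i < n, val (lM B n i) = val (lC B n i) * (val (lS B i) - val (lA B i)) := by
    intro i hi
    have g1 := holds_add (hconv i hi (false, lA B i, 8 * i, 8 * i + 1) (by simp [modConv]))
    have g2 := holds_add (hconv i hi (false, lS B i, 8 * i, 8 * i + 2) (by simp [modConv]))
    have g3 := holds_mul (hconv i hi (true, lC B n i, 8 * i + 1, 8 * i + 3) (by simp [modConv]))
    have g4 := holds_mul (hconv i hi (true, lC B n i, 8 * i + 2, 8 * i + 4) (by simp [modConv]))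
    have g5 := holds_add (hconv i hi (false, lM B n i, 8 * i + 3, 8 * i + 4) (by simp [modConv]))
    rw [g1] at g3
    rw [g2] at g4
    rw [g3, g4] at g5
    linarith
  have hCne : ∀ i < n, val (lC B n i) ≠ 0 := by
    intro i hi
    unfold lC
    exact hne _ (by omega) (by omega) (by omega)
  have hEne : val (lE B n) ≠ 0 := by
    unfold lE
    exact hne _ (by omega) (by omega) (by omega)
  refine ⟨fun i => val (lS B i) - val (lA B i), fun q hq => ?_⟩
  obtain ⟨ha, hb, hc⟩ := hC q hq
  obtain ⟨t, ht, htq⟩ := List.mem_iff_getElem.1 hq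
  have hmem : (q, t) ∈ C.zipIdx := by
    rw [List.mem_iff_getElem]
    refine ⟨t, by rw [List.length_zipIdx]; exact ht, ?_⟩
    rw [List.getElem_zipIdx, htq, Nat.zero_add]
  set b : ℕ := 8 * (n + t) with hb'
  have hbne : val b ≠ 0 := hne _ (by omega) (by omega) (by omega)
  have hcon : ∀ o ∈ modCon B n b q, NF.Holds val o := by
    intro o ho
    apply hops'
    rw [List.mem_append]
    exact Or.inr (List.mem_flatMap.2 ⟨(q, t), hmem, ho⟩)
  unfold PC.Holds
  unfold modCon at hcon
  by_cases h0 : q.1 = 0
  · rw [if_pos h0] at hcon ⊢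
    have g1 := holds_add (hcon (false, lS B q.2.1, b, b + 1) (by simp))
    have g2 := holds_add (hcon (false, lS B q.2.2.1, b + 1, b + 2) (by simp))
    have g3 := holds_add (hcon (false, lA B q.2.2.2, b + 2, b + 3) (by simp))
    have g4 := holds_add (hcon (false, lD B n, b, b + 4) (by simp))
    have g5 := holds_add (hcon (false, lS B q.2.2.2, b + 4, b + 5) (by simp))
    have g6 := holds_add (hcon (false, lA B q.2.1, b + 5, b + 6) (by simp))
    have g7 := holds_add (hcon (false, lA B q.2.2.1, b + 6, b + 7) (by simp))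
    have g8 := holds_add (hcon (false, lD B n, b + 3, b + 7) (by simp))
    show val (lS B q.2.1) - val (lA B q.2.1) + (val (lS B q.2.2.1) - val (lA B q.2.2.1)) =
      val (lS B q.2.2.2) - val (lA B q.2.2.2)
    linarith
  · rw [if_neg h0] at hcon ⊢
    by_cases h1' : q.1 = 1
    · rw [if_pos h1'] at hcon ⊢
      have g1 := holds_mul (hcon (true, lM B n q.2.1, b, b + 1) (by simp))
      have g2 := holds_mul (hcon (true, lM B n q.2.2.1, b + 1, b + 2) (by simp))
      have g3 := holds_mul (hcon (true, lC B n q.2.2.2, b + 2, b + 3) (by simp))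
      have g4 := holds_mul (hcon (true, lE B n, b, b + 4) (by simp))
      have g5 := holds_mul (hcon (true, lM B n q.2.2.2, b + 4, b + 5) (by simp))
      have g6 := holds_mul (hcon (true, lC B n q.2.1, b + 5, b + 6) (by simp))
      have g7 := holds_mul (hcon (true, lC B n q.2.2.1, b + 6, b + 7) (by simp))
      have g8 := holds_mul (hcon (true, lE B n, b + 3, b + 7) (by simp))
      show (val (lS B q.2.1) - val (lA B q.2.1)) * (val (lS B q.2.2.1) - val (lA B q.2.2.1)) =
        val (lS B q.2.2.2) - val (lA B q.2.2.2)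
      rw [g7, g6, g5, g4, g3, g2, g1, hM _ ha, hM _ hb, hM _ hc] at g8
      have k1 := hCne _ ha
      have k2 := hCne _ hb
      have k3 := hCne _ hc
      have hprod : val (lC B n q.2.1) * val (lC B n q.2.2.1) * val (lC B n q.2.2.2) *
          val (lE B n) * val b ≠ 0 :=
        mul_ne_zero (mul_ne_zero (mul_ne_zero (mul_ne_zero k1 k2) k3) hEne) hbne
      apply mul_left_cancel₀ hprod
      linear_combination -g8
    · rw [if_neg h1'] at hcon ⊢
      have g1 := holds_add (hcon (false, lS B q.2.2.2, b, b + 1) (by simp))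
      have g2 := holds_add (hcon (false, lA B q.2.1, b + 1, b + 2) (by simp))
      have g3 := holds_add (hcon (false, lD B n, b, b + 3) (by simp))
      have g4 := holds_add (hcon (false, lS B q.2.1, b + 3, b + 4) (by simp))
      have g5 := holds_add (hcon (false, lA B q.2.2.2, b + 4, b + 5) (by simp))
      have g6 := holds_add (hcon (false, B + 2, b + 5, b + 6) (by simp))
      have g7 := holds_add (hcon (false, lD B n, b + 2, b + 6) (by simp))
      show val (lS B q.2.1) - val (lA B q.2.1) + 1 = val (lS B q.2.2.2) - val (lA B q.2.2.2)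
      linarith

end Pool.Agent.Helper59.G4
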