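import Pool.Agent.Helper22.G4.Real
import Pool.Agent.Helper22.G4.St.C0
import Pool.Agent.Helper22.G4.St.R1
import Pool.Agent.Helper22.G4.St.R2
import Pool.Agent.Helper22.G4.St.R3

/-! # G4-R4: existence of the geometric data -/

namespace Pool.Agent.Helper59.G4

open Submodule Pool.Agent.Helper22.G4

/-- the lengths of the edges of an operation -/
theorem lengths {I : NF} (hI : I.OK) {val : ℕ → ℝ} {β : ℝ} {al : ℕ → ℝ}
    (h0 : val (I.B + 1) = 0) (h1 : val (I.B + 2) = 1)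
    (hs : ∀ i j, I.B + 2 ≤ i → i < j → j < I.K → val i < val j)
    (hsβ : ∀ i, I.B + 2 ≤ i → i < I.K → val i < β) (hbβ : ∀ i < I.B, β < val i)
    (hops : ∀ o ∈ I.ops, NF.Holds val o) (halB : al (pos I.B) = 0)
    (hal : ∀ l < I.K, l ≠ I.B → al (pos l) = 1 / (β - val l)) {d : OpD} (hd : d ∈ I.opds) :
    ∃ l₁ l₃ : ℝ, 0 < l₁ ∧ 0 < l₃ ∧ l₁ * al d.y = (l₁ + 1) * al d.z ∧
      l₃ * al d.x = (1 + l₃) * al d.v ∧
      l₁ * al d.y + l₃ * al d.x = (l₁ + 1 + l₃) * al d.w := by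
  unfold NF.opds at hd
  rw [List.mem_map] at hd
  obtain ⟨⟨o, n⟩, hon, rfl⟩ := hd
  have ho : o ∈ I.ops := List.fst_mem_of_mem_zipIdx hon
  obtain ⟨g1, g2, g3, g4, g5⟩ := hI.2 o ho
  have hK : I.K = I.B + 3 + I.S := rfl
  have e1 : OpD.y (I.opd n o) = pos o.2.2.1 := rfl
  have e2 : OpD.z (I.opd n o) = pos o.2.2.2 := rfl
  have e3 : OpD.x (I.opd n o) = pos o.2.1 := rfl
  have e4 : OpD.v (I.opd n o) = pos (if o.1 then I.B + 2 else I.B + 1) := rfl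
  have e5 : OpD.w (I.opd n o) = pos (if o.1 then I.B + 1 else I.B) := rfl
  have hx : al (pos o.2.1) = 1 / (β - val o.2.1) := hal _ g4 (by omega)
  have hy : al (pos o.2.2.1) = 1 / (β - val o.2.2.1) := hal _ (by omega) (by omega)
  have hz : al (pos o.2.2.2) = 1 / (β - val o.2.2.2) := hal _ (by omega) (by omega)
  have hB1 : al (pos (I.B + 1)) = 1 / (β - 0) := by
    rw [hal _ (by omega) (by omega), h0]
  have hB2 : al (pos (I.B + 2)) = 1 / (β - 1) := by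
    rw [hal _ (by omega) (by omega), h1]
  have hxβ : val o.2.1 < β := hsβ _ (by omega) g4
  have hβy : β < val o.2.2.1 := hbβ _ (by omega)
  have hH := hops o ho
  unfold NF.Holds at hH
  show ∃ l₁ l₃ : ℝ, 0 < l₁ ∧ 0 < l₃ ∧ l₁ * al (OpD.y (I.opd n o)) = (l₁ + 1) * al (OpD.z (I.opd n o)) ∧
      l₃ * al (OpD.x (I.opd n o)) = (1 + l₃) * al (OpD.v (I.opd n o)) ∧
      l₁ * al (OpD.y (I.opd n o)) + l₃ * al (OpD.x (I.opd n o)) =
        (l₁ + 1 + l₃) * al (OpD.w (I.opd n o))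
  rw [e1, e2, e3, e4, e5, hx, hy, hz]
  by_cases hm : o.1 = true
  · rw [if_pos hm] at hH ⊢
    rw [if_pos hm, hB1, hB2]
    have h1x : 1 < val o.2.1 := by
      rw [← h1]
      exact hs _ _ le_rfl (g5 hm) g4
    obtain ⟨l1, l3, p1, p2, p3, p4, p5⟩ := lengths_mul h1x hxβ hβy hH
    exact ⟨l1, l3, p1, p2, p3, p4, p5⟩
  · rw [if_neg hm] at hH ⊢
    rw [if_neg hm, hB1, halB]
    have h1x : 0 < val o.2.1 := by
      rcases Nat.lt_or_ge (I.B + 2) o.2.1 with h | h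
      · have := hs _ _ le_rfl h g4
        rw [h1] at this
        linarith
      · have h' : o.2.1 = I.B + 2 := by omega
        rw [h', h1]
        norm_num
    obtain ⟨l1, l3, p1, p2, p3, p4, p5⟩ := lengths_add h1x hxβ hβy hH
    exact ⟨l1, l3, p1, p2, p3, p4, p5⟩

/-- the four pages of an operation -/
def OpPages (al : ℕ → ℝ) (N : ℕ) (d : OpD) (X H T : Fin 4 → ℕ → ℝ) : Prop :=
  PageOK al N [(0, d.z), (d.z, d.x), (d.x, N)] (X 0) (H 0) (T 0) ∧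
  PageOK al N [(0, d.y), (d.y, d.i), (d.i, d.x), (d.x, N)] (X 1) (H 1) (T 1) ∧
  PageOK al N [(0, d.y), (d.y, d.v), (d.v, N)] (X 2) (H 2) (T 2) ∧
  PageOK al N [(0, d.w), (d.w, N)] (X 3) (H 3) (T 3) ∧
  (X 0 0 = X 1 0 ∧ H 0 0 = H 1 0) ∧ (X 0 d.z = X 1 d.i ∧ H 0 d.z = H 1 d.i) ∧
  (X 0 d.x = X 1 d.x ∧ H 0 d.x = H 1 d.x) ∧
  (X 2 0 = X 1 0 ∧ H 2 0 = H 1 0) ∧ (X 2 d.y = X 1 d.y ∧ H 2 d.y = H 1 d.y) ∧
  (X 2 d.v = X 1 d.x ∧ H 2 d.v = H 1 d.x) ∧
  (X 3 0 = X 2 0 ∧ H 3 0 = H 2 0) ∧ (X 3 d.w = X 2 d.v ∧ H 3 d.w = H 2 d.v)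

theorem opPages_exists {I : NF} (hI : I.OK) {al : ℕ → ℝ}
    (hmono : ∀ i j, i < j → j ≤ I.N → al i < al j) (halB : al (pos I.B) = 0) {d : OpD}
    (hd : d ∈ I.opds) {l₁ l₃ : ℝ} (hl1 : 0 < l₁) (hl3 : 0 < l₃)
    (e1 : l₁ * al d.y = (l₁ + 1) * al d.z) (e2 : l₃ * al d.x = (1 + l₃) * al d.v)
    (e3 : l₁ * al d.y + l₃ * al d.x = (l₁ + 1 + l₃) * al d.w) :
    ∃ X H T : Fin 4 → ℕ → ℝ, OpPages al I.N d X H T := by
  obtain ⟨h1, h2, h3, h4, h5, h6, h7, h8, h9, -⟩ := NF.opd_ok hI hd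
  have hali : al d.i = 0 := by rw [h9, halB]
  have hyz : d.y < d.z := by omega
  have n1 : d.y ≠ 0 := by omega
  have n2 : d.z ≠ 0 := by omega
  have n3 : d.i ≠ 0 := by omega
  have n4 : d.x ≠ 0 := by omega
  have n5 : d.v ≠ 0 := by omega
  have n6 : d.w ≠ 0 := by omega
  have n7 : d.i ≠ d.y := by omega
  have n8 : d.x ≠ d.y := by omega
  have n9 : d.x ≠ d.i := by omega
  have n10 : d.x ≠ d.z := by omega
  have n11 : d.v ≠ d.y := by omega
  set a := l₁ * al d.y with ha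
  set b := l₁ * al d.y + l₃ * al d.x with hb
  set X0 : ℕ → ℝ := fun s => if s = 0 then 0 else if s = d.z then l₁ + 1 else l₁ + 1 + l₃ with hX0
  set H0 : ℕ → ℝ := fun s => if s = 0 then 0 else if s = d.z then a else b with hH0
  set X1 : ℕ → ℝ := fun s => if s = 0 then 0 else if s = d.y then l₁ else
    if s = d.i then l₁ + 1 else l₁ + 1 + l₃ with hX1
  set H1 : ℕ → ℝ := fun s => if s = 0 then 0 else if s = d.y then a else
    if s = d.i then a else b with hH1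
  set X2 : ℕ → ℝ := fun s => if s = 0 then 0 else if s = d.y then l₁ else l₁ + 1 + l₃ with hX2
  set H2 : ℕ → ℝ := fun s => if s = 0 then 0 else if s = d.y then a else b with hH2
  set X3 : ℕ → ℝ := fun s => if s = 0 then 0 else l₁ + 1 + l₃ with hX3
  set H3 : ℕ → ℝ := fun s => if s = 0 then 0 else b with hH3
  obtain ⟨T0, hT0⟩ := page_chain hmono [(0, d.z), (d.z, d.x), (d.x, I.N)] X0 H0 (by
    intro p hp
    simp only [List.mem_cons, List.not_mem_nil, or_false] at hp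
    rcases hp with rfl | rfl | rfl <;> constructor <;> simp only <;> omega) (by
    simp only [List.isChain_cons_cons, List.isChain_singleton, and_true, true_and, hX0, hH0, if_true,
      if_neg n2, if_neg n4, if_neg n10]
    refine ⟨⟨by linarith, by rw [ha]; linarith⟩, ⟨by linarith, by rw [hb]; ring⟩⟩)
    (by simp) (by simp)
  obtain ⟨T1, hT1⟩ := page_chain hmono [(0, d.y), (d.y, d.i), (d.i, d.x), (d.x, I.N)] X1 H1 (by
    intro p hp
    simp only [List.mem_cons, List.not_mem_nil, or_false] at hp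
    rcases hp with rfl | rfl | rfl | rfl <;> constructor <;> simp only <;> omega) (by
    simp only [List.isChain_cons_cons, List.isChain_singleton, and_true, true_and, hX1, hH1, if_true,
      if_neg n1, if_neg n3, if_neg n4, if_neg n7, if_neg n8, if_neg n9]
    refine ⟨⟨by linarith, by rw [ha]; ring⟩, ⟨by linarith, by rw [hali]; ring⟩,
      ⟨by linarith, by rw [hb]; ring⟩⟩)
    (by simp) (by simp)
  obtain ⟨T2, hT2⟩ := page_chain hmono [(0, d.y), (d.y, d.v), (d.v, I.N)] X2 H2 (by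
    intro p hp
    simp only [List.mem_cons, List.not_mem_nil, or_false] at hp
    rcases hp with rfl | rfl | rfl <;> constructor <;> simp only <;> omega) (by
    simp only [List.isChain_cons_cons, List.isChain_singleton, and_true, true_and, hX2, hH2, if_true,
      if_neg n1, if_neg n5, if_neg n11]
    refine ⟨⟨by linarith, by rw [ha]; ring⟩, ⟨by linarith, by rw [hb]; linarith⟩⟩)
    (by simp) (by simp)
  obtain ⟨T3, hT3⟩ := page_chain hmono [(0, d.w), (d.w, I.N)] X3 H3 (by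
    intro p hp
    simp only [List.mem_cons, List.not_mem_nil, or_false] at hp
    rcases hp with rfl | rfl <;> constructor <;> simp only <;> omega) (by
    simp only [List.isChain_cons_cons, List.isChain_singleton, and_true, true_and, hX3, hH3, if_true,
      if_neg n6]
    refine ⟨by linarith, by rw [hb]; linarith⟩)
    (by simp) (by simp)
  refine ⟨![X0, X1, X2, X3], ![H0, H1, H2, H3], ![T0, T1, T2, T3], hT0, hT1, hT2, hT3, ?_⟩
  show (X0 0 = X1 0 ∧ H0 0 = H1 0) ∧ (X0 d.z = X1 d.i ∧ H0 d.z = H1 d.i) ∧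
    (X0 d.x = X1 d.x ∧ H0 d.x = H1 d.x) ∧
    (X2 0 = X1 0 ∧ H2 0 = H1 0) ∧ (X2 d.y = X1 d.y ∧ H2 d.y = H1 d.y) ∧
    (X2 d.v = X1 d.x ∧ H2 d.v = H1 d.x) ∧
    (X3 0 = X2 0 ∧ H3 0 = H2 0) ∧ (X3 d.w = X2 d.v ∧ H3 d.w = H2 d.v)
  simp only [hX0, hX1, hX2, hX3, hH0, hH1, hH2, hH3, if_true, if_neg n1, if_neg n2, if_neg n3,
    if_neg n4, if_neg n5, if_neg n6, if_neg n7, if_neg n8, if_neg n9, if_neg n10, if_neg n11,
    and_self]

/-- G4-R4 (existence of the geometric data). -/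
theorem geo_exists {I : NF} (hI : I.OK) (hs : I.Strong) : Nonempty (Geo I) := by
  classical
  obtain ⟨val, β, h0, h1, hs1, hsβ, hbβ, hb, hops⟩ := hs
  obtain ⟨al, hmono, halB, hal⟩ := al_exists h0 h1 hs1 hsβ hbβ hb
  have hsz := NF.size hI
  obtain ⟨X0, H0, T0, hP0⟩ := page_zero (al := al) (N := I.N) (by omega) hmono
  have hex : ∀ n : ℕ, ∃ F : (Fin 4 → ℕ → ℝ) × (Fin 4 → ℕ → ℝ) × (Fin 4 → ℕ → ℝ),
      ∀ d ∈ I.opds, d.n = n → OpPages al I.N d F.1 F.2.1 F.2.2 := by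
    intro n
    by_cases hn : ∃ d ∈ I.opds, d.n = n
    · obtain ⟨d, hd, hdn⟩ := hn
      obtain ⟨l1, l3, p1, p2, p3, p4, p5⟩ := lengths hI h0 h1 hs1 hsβ hbβ hops halB hal hd
      obtain ⟨X, H, T, hXHT⟩ := opPages_exists hI hmono halB hd p1 p2 p3 p4 p5
      refine ⟨(X, H, T), fun d' hd' hdn' => ?_⟩
      have : d' = d := NF.opds_inj hd' hd (by rw [hdn, hdn'])
      rw [this]
      exact hXHT
    · exact ⟨(0, 0, 0), fun d hd hdn => absurd ⟨d, hd, hdn⟩ hn⟩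
  choose F hF using hex
  set ix : ℕ → Fin 4 := fun a => ⟨(a - 1) % 4, Nat.mod_lt _ (by norm_num)⟩ with hix
  set X : ℕ → ℕ → ℝ := fun a => if a = 0 then X0 else (F ((a - 1) / 4)).1 (ix a) with hX
  set H : ℕ → ℕ → ℝ := fun a => if a = 0 then H0 else (F ((a - 1) / 4)).2.1 (ix a) with hH
  set T : ℕ → ℕ → ℝ := fun a => if a = 0 then T0 else (F ((a - 1) / 4)).2.2 (ix a) with hT
  have key : ∀ (n : ℕ) (k : Fin 4), X (4 * n + 1 + k) = (F n).1 k ∧
      H (4 * n + 1 + k) = (F n).2.1 k ∧ T (4 * n + 1 + k) = (F n).2.2 k := by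
    intro n k
    have hk := k.2
    have q1 : 4 * n + 1 + (k : ℕ) ≠ 0 := by omega
    have q2 : (4 * n + 1 + (k : ℕ) - 1) / 4 = n := by omega
    have q3 : ix (4 * n + 1 + (k : ℕ)) = k := by
      rw [hix]
      ext
      show (4 * n + 1 + (k : ℕ) - 1) % 4 = k
      omega
    simp only [hX, hH, hT, if_neg q1, q2, q3, and_self]
  have ka : ∀ d : OpD, X d.pa = (F d.n).1 0 ∧ H d.pa = (F d.n).2.1 0 ∧ T d.pa = (F d.n).2.2 0 :=
    fun d => key d.n 0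
  have kb : ∀ d : OpD, X d.pb = (F d.n).1 1 ∧ H d.pb = (F d.n).2.1 1 ∧ T d.pb = (F d.n).2.2 1 :=
    fun d => key d.n 1
  have kc : ∀ d : OpD, X d.pc = (F d.n).1 2 ∧ H d.pc = (F d.n).2.1 2 ∧ T d.pc = (F d.n).2.2 2 :=
    fun d => key d.n 2
  have kd : ∀ d : OpD, X d.pd = (F d.n).1 3 ∧ H d.pd = (F d.n).2.1 3 ∧ T d.pd = (F d.n).2.2 3 :=
    fun d => key d.n 3
  have k0 : X 0 = X0 ∧ H 0 = H0 ∧ T 0 = T0 := by
    simp only [hX, hH, hT, if_true, and_self]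
  refine ⟨⟨al, X, H, T, hmono, ?_, ?_⟩⟩
  · intro a i j hPU s hsN
    rcases NF.pu_iff.1 hPU with ⟨rfl, hi, rfl⟩ | ⟨d, hd, hcase⟩
    · rw [k0.1, k0.2.1, k0.2.2]
      exact hP0 (i, i + 1) (List.mem_map.2 ⟨i, List.mem_range.2 hi, rfl⟩) s hsN
    · obtain ⟨P0, P1, P2, P3, -⟩ := hF d.n d hd rfl
      rcases hcase with ⟨rfl, hc⟩ | ⟨rfl, hc⟩ | ⟨rfl, hc⟩ | ⟨rfl, hc⟩
      · obtain ⟨q1, q2, q3⟩ := ka d
        rw [q1, q2, q3]
        rcases hc with ⟨rfl, rfl⟩ | ⟨rfl, rfl⟩ | ⟨rfl, rfl⟩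
        · exact P0 (0, d.z) (by simp) s hsN
        · exact P0 (d.z, d.x) (by simp) s hsN
        · exact P0 (d.x, I.N) (by simp) s hsN
      · obtain ⟨q1, q2, q3⟩ := kb d
        rw [q1, q2, q3]
        rcases hc with ⟨rfl, rfl⟩ | ⟨rfl, rfl⟩ | ⟨rfl, rfl⟩ | ⟨rfl, rfl⟩
        · exact P1 (0, d.y) (by simp) s hsN
        · exact P1 (d.y, d.i) (by simp) s hsN
        · exact P1 (d.i, d.x) (by simp) s hsN
        · exact P1 (d.x, I.N) (by simp) s hsN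
      · obtain ⟨q1, q2, q3⟩ := kc d
        rw [q1, q2, q3]
        rcases hc with ⟨rfl, rfl⟩ | ⟨rfl, rfl⟩ | ⟨rfl, rfl⟩
        · exact P2 (0, d.y) (by simp) s hsN
        · exact P2 (d.y, d.v) (by simp) s hsN
        · exact P2 (d.v, I.N) (by simp) s hsN
      · obtain ⟨q1, q2, q3⟩ := kd d
        rw [q1, q2, q3]
        rcases hc with ⟨rfl, rfl⟩ | ⟨rfl, rfl⟩
        · exact P3 (0, d.w) (by simp) s hsN
        · exact P3 (d.w, I.N) (by simp) s hsN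
  · intro d hd
    obtain ⟨-, -, -, -, hk⟩ := hF d.n d hd rfl
    rw [(ka d).1, (ka d).2.1, (kb d).1, (kb d).2.1, (kc d).1, (kc d).2.1, (kd d).1, (kd d).2.1]
    exact hk

end Pool.Agent.Helper59.G4
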